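import Pool.Agent.Helper17.Trs.Defs

/-!
# Translations and invariant derivations: the facts needed for the zero lemma
-/

set_option autoImplicit false

namespace Trs.Z

open MvPolynomial

variable {n : ℕ} (tor : Fin n → Bool)

theorem tr_C (v : Fin n → ℂ) (a : ℂ) : tr tor v (C a) = C a := by
  rw [tr, aeval_C]; rfl

theorem tr_X (v : Fin n → ℂ) (i : Fin n) : tr tor v (X i) =
    if tor i then C (Complex.exp (v i)) * X i else X i + C (v i) := by
  rw [tr, aeval_X]

theorem tr_tr (v w : Fin n → ℂ) (f : Rg n) : tr tor v (tr tor w f) = tr tor (v + w) f := by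
  have h : (tr tor v).comp (tr tor w) = tr tor (v + w) := by
    apply MvPolynomial.algHom_ext
    intro i
    rw [AlgHom.comp_apply, tr_X, tr_X]
    by_cases h : tor i
    · simp only [h, if_true]
      rw [map_mul, tr_C, tr_X]
      simp only [h, if_true]
      rw [← mul_assoc, ← C_mul, Pi.add_apply, Complex.exp_add, mul_comm (Complex.exp (w i))]
    · simp only [h]
      rw [if_neg (by simp), if_neg (by simp), map_add, tr_C, tr_X, if_neg h, Pi.add_apply, C_add]
      ring
  exact AlgHom.congr_fun h f

theorem tr_zero (f : Rg n) : tr tor 0 f = f := by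
  have h : tr tor 0 = AlgHom.id ℂ (Rg n) := by
    apply MvPolynomial.algHom_ext
    intro i
    rw [tr_X]
    simp
  exact AlgHom.congr_fun h f

theorem tr_neg_tr (v : Fin n → ℂ) (f : Rg n) : tr tor (-v) (tr tor v f) = f := by
  rw [tr_tr, neg_add_cancel, tr_zero]

theorem tr_tr_neg (v : Fin n → ℂ) (f : Rg n) : tr tor v (tr tor (-v) f) = f := by
  rw [tr_tr, add_neg_cancel, tr_zero]

/-- the translation as an automorphism -/
noncomputable def trE (v : Fin n → ℂ) : Rg n ≃ₐ[ℂ] Rg n :=
  AlgEquiv.ofAlgHom (tr tor v) (tr tor (-v))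
    (AlgHom.ext fun f => tr_tr_neg tor v f) (AlgHom.ext fun f => tr_neg_tr tor v f)

theorem tr_injective (v : Fin n → ℂ) : Function.Injective (tr tor v) := (trE tor v).injective

theorem dr_C (w : Fin n → ℂ) (a : ℂ) : dr tor w (C a) = 0 := (dr tor w).map_algebraMap a

theorem dr_X (w : Fin n → ℂ) (i : Fin n) : dr tor w (X i) =
    if tor i then C (w i) * X i else C (w i) := by
  rw [dr, mkDerivation_X]

theorem dr_tr (w v : Fin n → ℂ) (f : Rg n) : dr tor w (tr tor v f) = tr tor v (dr tor w f) := by
  induction f using MvPolynomial.induction_on with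
  | C a => rw [tr_C, dr_C, map_zero]
  | add f g hf hg => rw [map_add, map_add, map_add, map_add, hf, hg]
  | mul_X f i hf =>
    have h1 : dr tor w (tr tor v (X i)) = tr tor v (dr tor w (X i)) := by
      rw [tr_X, dr_X]
      by_cases h : tor i
      · simp only [h, if_true]
        rw [Derivation.leibniz, dr_C, smul_zero, add_zero, dr_X]
        simp only [h, if_true]
        rw [map_mul, tr_C, tr_X]
        simp only [h, if_true, smul_eq_mul]
        ring
      · simp only [h]
        rw [if_neg (by simp), if_neg (by simp), map_add, dr_C, dr_X, if_neg h, tr_C, add_zero]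
    rw [map_mul, Derivation.leibniz, Derivation.leibniz, map_add, smul_eq_mul, smul_eq_mul,
      smul_eq_mul, smul_eq_mul, map_mul, map_mul, hf, h1]

theorem dr_dr (w w' : Fin n → ℂ) (f : Rg n) :
    dr tor w (dr tor w' f) = dr tor w' (dr tor w f) := by
  have h : ⁅dr tor w, dr tor w'⁆ = 0 := by
    apply MvPolynomial.derivation_ext
    intro i
    rw [Derivation.commutator_apply, dr_X, dr_X]
    by_cases h : tor i
    · simp only [h, if_true]
      rw [Derivation.leibniz, Derivation.leibniz, dr_C, dr_C, dr_X, dr_X]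
      simp only [h, if_true, smul_eq_mul, Derivation.zero_apply]
      ring
    · simp only [h]
      rw [if_neg (by simp), if_neg (by simp), dr_C, dr_C, sub_zero, Derivation.zero_apply]
  have h2 := congrArg (fun D : Derivation ℂ (Rg n) (Rg n) => D f) h
  simp only [Derivation.commutator_apply, Derivation.zero_apply] at h2
  exact sub_eq_zero.1 h2

theorem iter_dr_tr (w v : Fin n → ℂ) (k : ℕ) (f : Rg n) :
    (dr tor w)^[k] (tr tor v f) = tr tor v ((dr tor w)^[k] f) := by
  induction k generalizing f with
  | zero => rfl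
  | succ k ih => rw [Function.iterate_succ_apply, Function.iterate_succ_apply, dr_tr, ih]

theorem iter_dr_comm (w w' : Fin n → ℂ) (k k' : ℕ) (f : Rg n) :
    (dr tor w)^[k] ((dr tor w')^[k'] f) = (dr tor w')^[k'] ((dr tor w)^[k] f) := by
  have h : Function.Commute (⇑(dr tor w)) (⇑(dr tor w')) := fun f => dr_dr tor w w' f
  exact (h.iterate_iterate k k') f

theorem ev_tr (z v : Fin n → ℂ) (f : Rg n) : ev tor z (tr tor v f) = ev tor (z + v) f := by
  have h : (ev tor z).comp (tr tor v) = ev tor (z + v) := by
    apply MvPolynomial.algHom_ext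
    intro i
    rw [AlgHom.comp_apply, tr_X]
    unfold ev
    by_cases h : tor i
    · simp only [h, if_true]
      rw [map_mul, aeval_C, aeval_X, aeval_X]
      simp only [h, if_true]
      rw [Pi.add_apply, Complex.exp_add, mul_comm]
      rfl
    · simp only [h]
      rw [if_neg (by simp), map_add, aeval_C, aeval_X, aeval_X, if_neg h, if_neg h]
      rfl
  exact AlgHom.congr_fun h f

/-- a linear map that does not raise the degree of monomials does not raise the degree -/
theorem deg_lin (L : Rg n →ₗ[ℂ] Rg n) (i : Fin n)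
    (h : ∀ m : Fin n →₀ ℕ, (L (monomial m 1)).degreeOf i ≤ m i) (f : Rg n) :
    (L f).degreeOf i ≤ f.degreeOf i := by
  have e : L f = ∑ m ∈ f.support, C (coeff m f) * L (monomial m 1) := by
    conv_lhs => rw [f.as_sum]
    rw [map_sum]
    refine Finset.sum_congr rfl fun m _ => ?_
    have : (monomial m (coeff m f) : Rg n) = (coeff m f) • monomial m 1 := by
      rw [smul_monomial, smul_eq_mul, mul_one]
    rw [this, map_smul, smul_eq_C_mul]
  rw [e]
  refine (degreeOf_sum_le _ _ _).trans ?_
  refine Finset.sup_le fun m hm => ?_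
  refine (degreeOf_C_mul_le _ _ _).trans ((h m).trans ?_)
  exact degreeOf_le_iff.1 le_rfl m hm

theorem deg_tr (v : Fin n → ℂ) (i : Fin n) (f : Rg n) :
    (tr tor v f).degreeOf i ≤ f.degreeOf i := by
  classical
  refine deg_lin (tr tor v).toLinearMap i (fun m => ?_) f
  have e : (tr tor v).toLinearMap (monomial m 1) = m.prod fun j k => (tr tor v (X j)) ^ k := by
    rw [AlgHom.toLinearMap_apply, monomial_eq, map_mul, tr_C, C_1, one_mul, Finsupp.prod,
      map_prod, Finsupp.prod]
    simp only [map_pow]
  rw [e, Finsupp.prod]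
  refine (degreeOf_prod_le _ _ _).trans ?_
  have h : ∀ j ∈ m.support, ((tr tor v (X j)) ^ m j).degreeOf i ≤ if i = j then m i else 0 := by
    intro j _
    refine (degreeOf_pow_le _ _ _).trans ?_
    have h1 : (tr tor v (X j)).degreeOf i ≤ if i = j then 1 else 0 := by
      rw [tr_X]
      split_ifs with h2 h3 h3
      · exact (degreeOf_C_mul_le _ _ _).trans (by rw [degreeOf_X, if_pos h3])
      · exact (degreeOf_C_mul_le _ _ _).trans (by rw [degreeOf_X, if_neg h3])
      · refine (degreeOf_add_le _ _ _).trans ?_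
        rw [degreeOf_X, degreeOf_C, if_pos h3]
        simp
      · refine (degreeOf_add_le _ _ _).trans ?_
        rw [degreeOf_X, degreeOf_C, if_neg h3]
        simp
    split_ifs at h1 ⊢ with h2
    · subst h2
      exact (Nat.mul_le_mul_left _ h1).trans (by simp)
    · have := Nat.le_zero.1 h1
      rw [this, mul_zero]
  refine (Finset.sum_le_sum h).trans ?_
  rw [Finset.sum_ite_eq]
  split_ifs <;> simp

theorem deg_dr (w : Fin n → ℂ) (i : Fin n) (f : Rg n) :
    (dr tor w f).degreeOf i ≤ f.degreeOf i := by
  classical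
  refine deg_lin (dr tor w).toLinearMap i (fun m => ?_) f
  have e : (dr tor w : Rg n →ₗ[ℂ] Rg n) (monomial m 1) = (1 : ℂ) • m.sum fun j k =>
      (monomial (m - Finsupp.single j 1) (k : ℂ) : Rg n) •
        (if tor j then C (w j) * X j else C (w j) : Rg n) := mkDerivation_monomial ℂ _ m 1
  refine (le_of_eq (congrArg (degreeOf i) e)).trans ?_
  rw [one_smul, Finsupp.sum]
  refine (degreeOf_sum_le _ _ _).trans (Finset.sup_le fun j hj => ?_)
  rw [smul_eq_mul]
  have hj1 : 1 ≤ m j := Nat.one_le_iff_ne_zero.2 (Finsupp.mem_support_iff.1 hj)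
  have h1 : (monomial (m - Finsupp.single j 1) ((m j : ℕ) : ℂ) : Rg n).degreeOf i
      ≤ if i = j then m i - 1 else m i := by
    rw [degreeOf_monomial_eq _ _ (by
      have := Finsupp.mem_support_iff.1 hj
      exact_mod_cast this)]
    rw [Finsupp.tsub_apply, Finsupp.single_apply]
    by_cases h : j = i
    · rw [if_pos h, if_pos h.symm]
    · rw [if_neg h, if_neg (fun h' => h h'.symm)]
      exact Nat.sub_le _ _
  refine (degreeOf_mul_le _ _ _).trans ?_
  by_cases ht : tor j
  · rw [if_pos ht]
    have h2 : (C (w j) * X j : Rg n).degreeOf i ≤ if i = j then 1 else 0 :=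
      (degreeOf_C_mul_le _ _ _).trans (by rw [degreeOf_X])
    refine (Nat.add_le_add h1 h2).trans ?_
    split_ifs with h3
    · subst h3; omega
    · simp
  · rw [if_neg ht, degreeOf_C, add_zero]
    refine h1.trans ?_
    split_ifs
    · exact Nat.sub_le _ _
    · exact le_rfl

theorem deg_iter_dr (w : Fin n → ℂ) (i : Fin n) (k : ℕ) (f : Rg n) :
    ((dr tor w)^[k] f).degreeOf i ≤ f.degreeOf i := by
  induction k generalizing f with
  | zero => exact le_rfl
  | succ k ih =>
    rw [Function.iterate_succ_apply]
    exact (ih _).trans (deg_dr tor w i f)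

theorem vars_tr (v : Fin n → ℂ) (f : Rg n) : (tr tor v f).vars ⊆ f.vars := by
  classical
  intro i hi
  by_contra h
  have h1 : f.degreeOf i = 0 := by
    rw [degreeOf_def]
    rw [vars_def, Multiset.mem_toFinset] at h
    exact Multiset.count_eq_zero_of_notMem h
  have h2 := deg_tr tor v i f
  rw [h1, Nat.le_zero, degreeOf_def] at h2
  rw [vars_def, Multiset.mem_toFinset] at hi
  exact (Multiset.count_eq_zero.1 h2) hi

end Trs.Z
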