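import Pool.Agent.Helper17.Trs.Defs

/-!
# Dimension formula: height of a prime of a polynomial ring and maximal independent sets of coordinates
-/

set_option autoImplicit false

namespace Trs

open MvPolynomial

/-- height of a maximal ideal of a polynomial ring over a field -/
theorem height_max (K : Type) [Field K] (ι : Type) [Finite ι] (M : Ideal (MvPolynomial ι K))
    (hM : M.IsMaximal) : M.height = ((Nat.card ι : ℕ) : ℕ∞) := by
  induction ι using Finite.induction_empty_option with
  | of_equiv e H =>
    let f := (renameEquiv K e).toRingEquiv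
    have h1 : (M.comap f).IsMaximal := Ideal.comap_isMaximal_of_surjective _ f.surjective
    have h2 := H (M.comap f) h1
    rw [RingEquiv.height_comap] at h2
    rw [h2, Nat.card_congr e]
  | h_empty =>
    have h1 := Ideal.height_le_ringKrullDim_of_ne_top hM.ne_top
    rw [MvPolynomial.ringKrullDim_of_isNoetherianRing, ringKrullDim_eq_zero_of_field] at h1
    simp only [Nat.card_eq_fintype_card, Fintype.card_pempty, Nat.cast_zero, add_zero] at h1 ⊢
    have h2 : M.height ≤ 0 := by exact_mod_cast h1
    exact le_antisymm h2 bot_le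
  | h_option IH =>
    rename_i α _
    let f := (optionEquivLeft K α).toRingEquiv
    let M' : Ideal (Polynomial (MvPolynomial α K)) := M.map f
    have h1 : M'.IsMaximal := Ideal.map_isMaximal_of_equiv f
    have h2 : M'.height = M.height := RingEquiv.height_map f M
    have h3 : (M'.under (MvPolynomial α K)).IsMaximal :=
      Polynomial.isMaximal_comap_C_of_isJacobsonRing M'
    have h4 := IH _ h3
    have h5 := Polynomial.height_eq_height_add_one (M'.under (MvPolynomial α K)) M'
    rw [← h2, h5, h4]
    simp

attribute [local instance] MvPolynomial.algebraMvPolynomial in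
theorem height_aux (A K : Type) [CommRing A] [IsDomain A] [Field K] [Algebra A K]
    [IsFractionRing A K] (ι : Type) [Finite ι] (P : Ideal (MvPolynomial ι A)) (hP : P.IsPrime)
    (h0 : ∀ a : A, (C a : MvPolynomial ι A) ∈ P → a = 0)
    (halg : ∀ j, ∃ F : Polynomial A, F ≠ 0 ∧
      Polynomial.aeval (X j : MvPolynomial ι A) F ∈ P) : P.height = ((Nat.card ι : ℕ) : ℕ∞) := by
  classical
  let Mo : Submonoid (MvPolynomial ι A) := (nonZeroDivisors A).map (C : A →+* MvPolynomial ι A)
  have hloc : IsLocalization Mo (MvPolynomial ι K) :=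
    MvPolynomial.isLocalization (nonZeroDivisors A) K
  have hdis : Disjoint (Mo : Set (MvPolynomial ι A)) (P : Set (MvPolynomial ι A)) := by
    rw [Set.disjoint_left]
    rintro x ⟨a, ha, rfl⟩ hx
    exact nonZeroDivisors.ne_zero ha (h0 a hx)
  have h1 := IsLocalization.height_map_of_disjoint (S := MvPolynomial ι K) Mo P hdis
  set Q : Ideal (MvPolynomial ι K) := P.map (algebraMap _ (MvPolynomial ι K)) with hQ
  have hQp : Q.IsPrime := IsLocalization.isPrime_of_isPrime_disjoint Mo _ P hP hdis
  rw [← h1]
  apply height_max
  have hint : ∀ j, IsIntegral K (Ideal.Quotient.mk Q (X j)) := by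
    intro j
    obtain ⟨F, hF0, hF⟩ := halg j
    rw [← isAlgebraic_iff_isIntegral]
    refine ⟨F.map (algebraMap A K), ?_, ?_⟩
    · rwa [Ne, Polynomial.map_eq_zero_iff (IsFractionRing.injective A K)]
    · have e1 : Polynomial.aeval (Ideal.Quotient.mk Q (X j)) (F.map (algebraMap A K))
          = Ideal.Quotient.mk Q (algebraMap (MvPolynomial ι A) (MvPolynomial ι K)
            (Polynomial.aeval (X j : MvPolynomial ι A) F)) := by
        rw [Polynomial.aeval_def, Polynomial.eval₂_map, Polynomial.aeval_def,
          Polynomial.hom_eval₂, Polynomial.hom_eval₂]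
        have e2 : (algebraMap (MvPolynomial ι A) (MvPolynomial ι K)) (X j) = X j := by
          rw [MvPolynomial.algebraMap_def, map_X]
        have e3 : (algebraMap K (MvPolynomial ι K ⧸ Q)).comp (algebraMap A K)
            = (Ideal.Quotient.mk Q).comp ((algebraMap (MvPolynomial ι A) (MvPolynomial ι K)).comp
              (algebraMap A (MvPolynomial ι A))) := by
          ext a
          have e4 : (algebraMap (MvPolynomial ι A) (MvPolynomial ι K))
              (algebraMap A (MvPolynomial ι A) a) = C (algebraMap A K a) := by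
            rw [MvPolynomial.algebraMap_def, MvPolynomial.algebraMap_eq, map_C]
          rw [RingHom.comp_apply, RingHom.comp_apply, RingHom.comp_apply, e4]
          rfl
        rw [e2, e3]
      rw [e1, Ideal.Quotient.eq_zero_iff_mem]
      exact Ideal.mem_map_of_mem _ hF
  have hall : Algebra.IsIntegral K (MvPolynomial ι K ⧸ Q) := by
    refine ⟨fun x => ?_⟩
    obtain ⟨f, rfl⟩ := Ideal.Quotient.mk_surjective x
    induction f using MvPolynomial.induction_on with
    | C a => exact isIntegral_algebraMap (R := K) (x := a)
    | add f g hf hg => rw [map_add]; exact hf.add hg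
    | mul_X f j hf => rw [map_mul]; exact hf.mul (hint j)
  exact Ideal.Quotient.maximal_of_isField Q
    (isField_of_isIntegral_of_isField' (R := K) (Field.toIsField K))

theorem tdim : S_Tdim := by
  classical
  intro n p hp I hI
  obtain ⟨hind, hmax⟩ := hI
  let A := MvPolynomial {i : Fin n // i ∈ I} ℂ
  let B := MvPolynomial {i : Fin n // ¬ i ∈ I} A
  let e1 : ({i : Fin n // ¬ i ∈ I} ⊕ {i : Fin n // i ∈ I}) ≃ Fin n :=
    (Equiv.sumComm _ _).trans (Equiv.sumCompl (fun i => i ∈ I))
  let e : Rg n ≃ₐ[ℂ] B := (renameEquiv ℂ e1).symm.trans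
    (sumAlgEquiv ℂ {i : Fin n // ¬ i ∈ I} {i : Fin n // i ∈ I})
  have e_in : ∀ i (h : i ∈ I), e (X i) = C (X ⟨i, h⟩) := by
    intro i h
    have : (renameEquiv ℂ e1).symm (X i) = X (Sum.inr ⟨i, h⟩) := by
      rw [AlgEquiv.symm_apply_eq]
      simp [e1]
    show (sumAlgEquiv ℂ _ _) ((renameEquiv ℂ e1).symm (X i)) = _
    rw [this, sumAlgEquiv_X_inr]
  have e_out : ∀ i (h : ¬ i ∈ I), e (X i) = X ⟨i, h⟩ := by
    intro i h
    have : (renameEquiv ℂ e1).symm (X i) = X (Sum.inl ⟨i, h⟩) := by
      rw [AlgEquiv.symm_apply_eq]
      simp [e1]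
    show (sumAlgEquiv ℂ _ _) ((renameEquiv ℂ e1).symm (X i)) = _
    rw [this, sumAlgEquiv_X_inl]
  let p1 : Ideal B := p.map e.toRingEquiv
  have hp1 : p1.IsPrime := Ideal.map_isPrime_of_equiv e.toRingEquiv
  have ht1 : p1.height = p.height := RingEquiv.height_map e.toRingEquiv p
  have mem1 : ∀ f, f ∈ p → e f ∈ p1 := fun f hf => Ideal.mem_map_of_mem e.toRingEquiv hf
  have mem1' : ∀ f, e f ∈ p1 → f ∈ p := by
    intro f hf
    have h1 : f ∈ p1.comap e.toRingEquiv := hf
    rwa [Ideal.comap_map_of_bijective e.toRingEquiv e.toRingEquiv.bijective] at h1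
  rw [← ht1, height_aux A (FractionRing A) {i : Fin n // ¬ i ∈ I} p1 hp1 ?_ ?_]
  · have hc : Nat.card {i : Fin n // ¬ i ∈ I} + I.card = n := by
      rw [Nat.card_eq_fintype_card, Fintype.card_subtype_compl, Fintype.card_coe,
        Fintype.card_fin]
      have := Finset.card_le_univ I
      rw [Fintype.card_fin] at this
      omega
    exact_mod_cast hc
  · intro a ha
    -- `C a` comes from a polynomial in the variables `I`
    let ι : {i : Fin n // i ∈ I} → Fin n := fun i => i.1
    have e2 : e (rename ι a) = C a := by
      have h3 : ((e : Rg n →+* B).comp ((rename ι : A →ₐ[ℂ] Rg n) : A →+* Rg n)) = (C : A →+* B) := by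
        refine MvPolynomial.ringHom_ext (fun r => ?_) (fun i => ?_)
        · show e (rename ι (C r)) = C (C r)
          rw [rename_C]
          exact e.commutes r
        · show e (rename ι (X i)) = C (X i)
          rw [rename_X]
          exact e_in i.1 i.2
      exact RingHom.congr_fun h3 a
    have h2 := hind (rename ι a) ?_ (mem1' _ (by rw [e2]; exact ha))
    · exact (rename_injective ι Subtype.val_injective) (by rw [h2, map_zero])
    · intro i hi
      have := vars_rename ι a hi
      simp only [Finset.mem_image] at this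
      obtain ⟨j, _, rfl⟩ := this
      exact j.2
  · rintro ⟨j, hj⟩
    have h2 := hmax j hj
    unfold Ind at h2
    push Not at h2
    obtain ⟨f, hfv, hfp, hf0⟩ := h2
    let g : Rg n →+* Polynomial A := eval₂Hom ((Polynomial.C).comp (C : ℂ →+* A))
      (fun i => if h : i ∈ I then Polynomial.C (X ⟨i, h⟩) else Polynomial.X)
    have hg : Polynomial.aeval (X ⟨j, hj⟩ : B) (g f) = e f := by
      have h3 : ((Polynomial.aeval (X ⟨j, hj⟩ : B) : Polynomial A →ₐ[A] B) : Polynomial A →+* B).comp g f
          = (e : Rg n →+* B) f := by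
        refine hom_congr_vars ?_ ?_ rfl
        · refine RingHom.ext fun r => ?_
          show Polynomial.aeval (X ⟨j, hj⟩ : B) (g (C r)) = e (C r)
          have h4 : g (C r) = Polynomial.C (C r) := eval₂Hom_C _ _ _
          rw [h4, Polynomial.aeval_C]
          exact (e.commutes r).symm
        · intro i hi _
          have hi' := hfv hi
          rw [Finset.mem_insert] at hi'
          by_cases hiI : i ∈ I
          · show Polynomial.aeval (X ⟨j, hj⟩ : B) (g (X i)) = e (X i)
            have h4 : g (X i) = Polynomial.C (X ⟨i, hiI⟩) := by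
              rw [eval₂Hom_X']
              simp only [hiI, dite_true]
            rw [h4, Polynomial.aeval_C, e_in i hiI]
            rfl
          · obtain rfl : i = j := by tauto
            show Polynomial.aeval (X ⟨i, hj⟩ : B) (g (X i)) = e (X i)
            have h4 : g (X i) = Polynomial.X := by
              rw [eval₂Hom_X']
              simp only [hiI, dite_false]
            rw [h4, Polynomial.aeval_X, e_out i hj]
      exact h3
    refine ⟨g f, ?_, ?_⟩
    · intro h3
      rw [h3, map_zero] at hg
      exact hf0 (e.injective (by rw [← hg, map_zero]))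
    · rw [hg]
      exact mem1 f hfp

end Trs
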