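import Pool.Agent.Helper47.Trs.ZApi

/-!
# The zero lemma from the local counting statement and the dimension formula
-/

set_option autoImplicit false

namespace Trs.Z

open MvPolynomial

section gp

variable {n m : ℕ} (γ : Fin m → Fin n → ℂ)

theorem gp_add (g h : Fin m → ℤ) : gp γ (g + h) = gp γ g + gp γ h := by
  unfold gp
  rw [← Finset.sum_add_distrib]
  refine Finset.sum_congr rfl fun k _ => ?_
  rw [Pi.add_apply, Int.cast_add, add_smul]

theorem gp_zero : gp γ (0 : Fin m → ℤ) = 0 := by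
  unfold gp
  simp

theorem gp_neg (g : Fin m → ℤ) : gp γ (-g) = - gp γ g := by
  have h := gp_add γ (-g) g
  rw [neg_add_cancel, gp_zero] at h
  exact eq_neg_of_add_eq_zero_left h.symm

end gp

variable {n m : ℕ} (tor : Fin n → Bool) (γ : Fin m → Fin n → ℂ) (w1 w2 : Fin n → ℂ)
  (S σ : ℕ) (P : Rg n)

/-- the generators -/
def Gen (r : ℕ) : Set (Rg n) :=
  {f | ∃ (g : Fin m → ℤ) (k1 k2 : ℕ), (∀ k, |g k| ≤ r * S) ∧ k1 + k2 ≤ r * σ ∧
    f = tr tor (gp γ g) ((dr tor w1)^[k1] ((dr tor w2)^[k2] P))}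

theorem self_mem_Gen (r : ℕ) : P ∈ Gen tor γ w1 w2 S σ P r :=
  ⟨0, 0, 0, fun k => by rw [Pi.zero_apply, abs_zero]; positivity, Nat.zero_le _, by
    rw [gp_zero, tr_zero]; rfl⟩

theorem Gen_mono {r r' : ℕ} (h : r ≤ r') : Gen tor γ w1 w2 S σ P r ⊆ Gen tor γ w1 w2 S σ P r' := by
  rintro f ⟨g, k1, k2, h1, h2, rfl⟩
  refine ⟨g, k1, k2, fun k => (h1 k).trans ?_, h2.trans (Nat.mul_le_mul_right _ h), rfl⟩
  exact_mod_cast Nat.mul_le_mul_right S h

theorem Gen_step {r : ℕ} {f : Rg n} (hf : f ∈ Gen tor γ w1 w2 S σ P r) (h : Fin m → ℤ)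
    (hh : ∀ k, |h k| ≤ S) (k1 k2 : ℕ) (hk : k1 + k2 ≤ σ) :
    tr tor (gp γ h) ((dr tor w1)^[k1] ((dr tor w2)^[k2] f)) ∈ Gen tor γ w1 w2 S σ P (r + 1) := by
  obtain ⟨g, l1, l2, h1, h2, rfl⟩ := hf
  refine ⟨h + g, k1 + l1, k2 + l2, fun k => ?_, ?_, ?_⟩
  · rw [Pi.add_apply]
    refine (abs_add_le _ _).trans ?_
    have := h1 k
    have := hh k
    push_cast
    linarith
  · rw [add_mul, one_mul]
    omega
  · rw [iter_dr_tr, iter_dr_tr, tr_tr, ← gp_add, Function.iterate_add_apply _ k1 l1,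
      Function.iterate_add_apply _ k2 l2, iter_dr_comm tor w1 w2 l1 k2]

theorem deg_Gen {r : ℕ} {f : Rg n} (hf : f ∈ Gen tor γ w1 w2 S σ P r) (i : Fin n) :
    f.degreeOf i ≤ P.degreeOf i := by
  obtain ⟨g, l1, l2, h1, h2, rfl⟩ := hf
  exact (deg_tr _ _ _ _).trans ((deg_iter_dr _ _ _ _ _).trans (deg_iter_dr _ _ _ _ _))

/-- the ideals -/
noncomputable def J (r : ℕ) : Ideal (Rg n) := Ideal.span (Gen tor γ w1 w2 S σ P r)

/-- the vector spaces -/
noncomputable def V (r : ℕ) : Submodule ℂ (Rg n) := Submodule.span ℂ (Gen tor γ w1 w2 S σ P r)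

theorem span_V (r : ℕ) : Ideal.span (V tor γ w1 w2 S σ P r : Set (Rg n)) = J tor γ w1 w2 S σ P r := by
  apply le_antisymm
  · rw [Ideal.span_le]
    have : V tor γ w1 w2 S σ P r ≤ (J tor γ w1 w2 S σ P r).restrictScalars ℂ :=
      Submodule.span_le.2 Ideal.subset_span
    exact this
  · exact Ideal.span_mono Submodule.subset_span

theorem J_mono {r r' : ℕ} (h : r ≤ r') : J tor γ w1 w2 S σ P r ≤ J tor γ w1 w2 S σ P r' :=
  Ideal.span_mono (Gen_mono tor γ w1 w2 S σ P h)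

/-- minimal height of the primes between `J r` and the ideal of the neutral element -/
noncomputable def hh (r : ℕ) : ℕ∞ :=
  sInf {x | ∃ q : Ideal (Rg n), q.IsPrime ∧ J tor γ w1 w2 S σ P r ≤ q ∧
    q ≤ RingHom.ker (ev tor 0) ∧ q.height = x}

theorem hh_le {r : ℕ} {q : Ideal (Rg n)} (hq : q.IsPrime) (h1 : J tor γ w1 w2 S σ P r ≤ q)
    (h2 : q ≤ RingHom.ker (ev tor 0)) : hh tor γ w1 w2 S σ P r ≤ q.height :=
  sInf_le ⟨q, hq, h1, h2, rfl⟩

instance ker_prime : (RingHom.ker (ev tor (0 : Fin n → ℂ))).IsPrime := RingHom.ker_isPrime _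

theorem height_le_n {q : Ideal (Rg n)} (hq : q.IsPrime) : q.height ≤ n := by
  have h := Ideal.height_le_ringKrullDim_of_ne_top hq.ne_top
  rw [MvPolynomial.ringKrullDim_of_isNoetherianRing, ringKrullDim_eq_zero_of_field, zero_add,
    Nat.card_eq_fintype_card, Fintype.card_fin] at h
  exact_mod_cast h

theorem exists_hh {r : ℕ} (h : J tor γ w1 w2 S σ P r ≤ RingHom.ker (ev tor 0)) :
    ∃ q : Ideal (Rg n), q.IsPrime ∧ J tor γ w1 w2 S σ P r ≤ q ∧
    q ≤ RingHom.ker (ev tor 0) ∧ q.height = hh tor γ w1 w2 S σ P r :=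
  csInf_mem (s := {x | ∃ q : Ideal (Rg n), q.IsPrime ∧ J tor γ w1 w2 S σ P r ≤ q ∧
    q ≤ RingHom.ker (ev tor 0) ∧ q.height = x}) ⟨_, _, ker_prime tor, h, le_rfl, rfl⟩

theorem hh_mono {r r' : ℕ} (h : r ≤ r') :
    hh tor γ w1 w2 S σ P r ≤ hh tor γ w1 w2 S σ P r' := by
  refine sInf_le_sInf ?_
  rintro x ⟨q, h1, h2, h3, h4⟩
  exact ⟨q, h1, (J_mono tor γ w1 w2 S σ P h).trans h2, h3, h4⟩

/-- three consecutive equal values -/
theorem three (f : ℕ → ℕ∞) (N : ℕ) (hm : ∀ r r', r ≤ r' → r' ≤ 2 * N → f r ≤ f r')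
    (h1 : 1 ≤ f 0) (hN : f (2 * N) ≤ N) : ∃ r, r + 2 ≤ 2 * N ∧ f (r + 2) = f r := by
  by_contra hcon
  push Not at hcon
  have key : ∀ j : ℕ, j ≤ N → ((j + 1 : ℕ) : ℕ∞) ≤ f (2 * j) := by
    intro j
    induction j with
    | zero => intro _; simpa using h1
    | succ j ih =>
      intro hj
      have h2 := ih (by omega)
      have h3 := hm (2 * j) (2 * j + 2) (by omega) (by omega)
      have h4 : f (2 * j) < f (2 * j + 2) :=
        lt_of_le_of_ne h3 (fun h => hcon (2 * j) (by omega) h.symm)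
      have h5 : f (2 * j) + 1 ≤ f (2 * j + 2) := Order.add_one_le_of_lt h4
      calc ((j + 1 + 1 : ℕ) : ℕ∞) = ((j + 1 : ℕ) : ℕ∞) + 1 := by push_cast; rfl
        _ ≤ f (2 * j) + 1 := by gcongr
        _ ≤ f (2 * j + 2) := h5
  have h6 := (key N le_rfl).trans hN
  have : (N + 1 : ℕ) ≤ N := by exact_mod_cast h6
  omega

end Trs.Z

namespace Trs

open MvPolynomial Z

theorem zero_lemma (hCore : S_Core) (hTdim : S_Tdim) : S_Zero := by
  classical
  intro n m tor γ w1 w2 S σ d hd P0 hP0 hdeg hvan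
  -- centre the box
  set P : Rg n := tr tor (gp γ fun _ => ((2 * n * S : ℕ) : ℤ)) P0 with hP
  have hPne : P ≠ 0 := by
    intro h
    exact hP0 (tr_injective tor _ (by rw [← hP, h, map_zero]))
  have hdegP : ∀ i, P.degreeOf i ≤ d i := fun i => (deg_tr _ _ _ _).trans (hdeg i)
  have hJ : ∀ r, r ≤ 2 * n → J tor γ w1 w2 S σ P r ≤ RingHom.ker (ev tor 0) := by
    intro r hr
    rw [J, Ideal.span_le]
    rintro f ⟨g, k1, k2, h1, h2, rfl⟩
    rw [SetLike.mem_coe, RingHom.mem_ker]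
    show ev tor 0 _ = 0
    rw [hP, iter_dr_tr, iter_dr_tr, tr_tr, ← gp_add, ev_tr, zero_add]
    refine hvan _ (fun k => ?_) k1 k2 (h2.trans (by gcongr))
    have h3 := abs_le.1 (h1 k)
    have h4 : (r : ℤ) * S ≤ 2 * n * S := by
      exact_mod_cast Nat.mul_le_mul_right S hr
    rw [Pi.add_apply]
    push_cast
    constructor <;> nlinarith [h3.1, h3.2]
  have hPJ : ∀ r, P ∈ J tor γ w1 w2 S σ P r := fun r => Ideal.subset_span (self_mem_Gen _ _ _ _ _ _ _ r)
  obtain ⟨r, hr, hrr⟩ := three (hh tor γ w1 w2 S σ P) n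
    (fun a b hab _ => hh_mono tor γ w1 w2 S σ P hab) (by
      obtain ⟨q, hq, h1, h2, h3⟩ := exists_hh tor γ w1 w2 S σ P (hJ 0 (Nat.zero_le _))
      rw [← h3, Order.one_le_iff_ne_zero]
      intro h4
      rw [Ideal.height_eq_zero_iff_eq_bot] at h4
      have := h1 (hPJ 0)
      rw [h4] at this
      exact hPne this) (by
      obtain ⟨q, hq, h1, h2, h3⟩ := exists_hh tor γ w1 w2 S σ P (hJ (2 * n) le_rfl)
      rw [← h3]
      exact height_le_n hq)
  obtain ⟨p, hp, hJp, hpm, hph⟩ := exists_hh tor γ w1 w2 S σ P (hJ (r + 2) hr)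
  refine ⟨p, hp, ?_, hpm, ?_⟩
  · intro h
    have := hJp (hPJ _)
    rw [h] at this
    exact hPne this
  intro I hI Ax hfree w hw
  -- the codimension
  obtain ⟨c, hc⟩ := ENat.ne_top_iff_exists.1
    (ne_top_of_le_ne_top (ENat.natCast_ne_top n) (height_le_n hp))
  have hcI : c + I.card = n := by
    have := hTdim n p hp I hI
    rw [← hc] at this
    exact_mod_cast this
  -- the translates
  let T := {k : Fin m // k ∈ Ax} → Fin (S + 1)
  let gt : T → Fin m → ℤ := fun t k => if h : k ∈ Ax then ((t ⟨k, h⟩ : ℕ) : ℤ) else 0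
  have gt_le : ∀ t k, |gt t k| ≤ S := by
    intro t k
    by_cases h : k ∈ Ax
    · have e : gt t k = ((t ⟨k, h⟩ : ℕ) : ℤ) := dif_pos h
      rw [e, abs_of_nonneg (by positivity)]
      have := (t ⟨k, h⟩).2
      omega
    · have e : gt t k = 0 := dif_neg h
      rw [e, abs_zero]
      positivity
  let q : T → Ideal (Rg n) := fun t => p.comap (trE tor (gp γ (gt t))).toRingEquiv
  have q_mem : ∀ t f, f ∈ q t ↔ tr tor (gp γ (gt t)) f ∈ p := fun t f => Iff.rfl
  have hqp : ∀ t, (q t).IsPrime := fun t => Ideal.comap_isPrime _ _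
  have hqh : ∀ t, (q t).height = c := by
    intro t
    rw [hc]
    exact RingEquiv.height_comap _ _
  have hcard : Fintype.card T = (S + 1) ^ Ax.card := by
    simp [T]
  rw [← hcard]
  refine hCore n c σ w tor w1 w2 I hcI ?_ d hd T q ?_ hqp hqh ?_ ?_
    (V tor γ w1 w2 S σ P (r + 1)) ?_ ?_ ?_
  · -- `w ≤ 2`
    rcases w with _ | _ | _ | w
    · omega
    · omega
    · omega
    · exact absurd hw (by simp [Wt])
  · -- injectivity
    intro t t' htt
    have h1 : Stb tor p (gp γ (gt t - gt t')) := by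
      intro f
      have h2 : tr tor (gp γ (-(gt t'))) f ∈ q t' ↔ tr tor (gp γ (-(gt t'))) f ∈ q t := by
        rw [htt]
      rw [q_mem, q_mem, tr_tr, tr_tr, ← gp_add, ← gp_add, add_neg_cancel, gp_zero, tr_zero,
        ← sub_eq_add_neg] at h2
      exact h2
    have h2 := hfree (gt t - gt t') (fun k hk => by
      rw [Pi.sub_apply]
      have e1 : gt t k = 0 := dif_neg hk
      have e2 : gt t' k = 0 := dif_neg hk
      rw [e1, e2, sub_zero]) h1
    funext ⟨k, hk⟩
    have h3 := congrFun h2 k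
    rw [Pi.sub_apply, Pi.zero_apply] at h3
    have e1 : gt t k = ((t ⟨k, hk⟩ : ℕ) : ℤ) := dif_pos hk
    have e2 : gt t' k = ((t' ⟨k, hk⟩ : ℕ) : ℤ) := dif_pos hk
    rw [e1, e2] at h3
    exact Fin.ext (by omega)
  · -- independence
    intro t f hf hfq
    have h1 := hI.1 _ ((vars_tr tor _ f).trans hf) ((q_mem t f).1 hfq)
    exact tr_injective tor _ (by rw [h1, map_zero])
  · -- transversality
    intro t
    have hmem : ∀ z, z ∈ p → tr tor (-(gp γ (gt t))) z ∈ q t := by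
      intro z hz
      rw [q_mem, tr_tr_neg]
      exact hz
    rcases w with _ | _ | _ | w
    · trivial
    · obtain ⟨z, hz, hz'⟩ := hw
      refine ⟨_, hmem z hz, ?_⟩
      rcases hz' with h1 | h1
      · left
        rw [dr_tr, q_mem, tr_tr_neg]
        exact h1
      · right
        rw [dr_tr, q_mem, tr_tr_neg]
        exact h1
    · obtain ⟨z, hz, z', hz', h1⟩ := hw
      refine ⟨_, hmem z hz, _, hmem z' hz', ?_⟩
      rw [dr_tr, dr_tr, dr_tr, dr_tr, ← map_mul, ← map_mul, ← map_sub, q_mem, tr_tr_neg]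
      exact h1
    · exact absurd hw (by simp [Wt])
  · -- minimal primes
    intro t
    rw [span_V]
    refine ⟨⟨hqp t, ?_⟩, ?_⟩
    · rw [J, Ideal.span_le]
      intro f hf
      rw [SetLike.mem_coe, q_mem]
      have h1 := Gen_step tor γ w1 w2 S σ P hf (gt t) (gt_le t) 0 0 (Nat.zero_le _)
      exact hJp (Ideal.subset_span h1)
    · rintro q' ⟨hq', hJq'⟩ hle
      let v := gp γ (gt t)
      let q'' : Ideal (Rg n) := q'.comap (trE tor (-v)).toRingEquiv
      have q''_mem : ∀ f, f ∈ q'' ↔ tr tor (-v) f ∈ q' := fun f => Iff.rfl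
      have hq'' : q''.IsPrime := Ideal.comap_isPrime _ _
      have h1 : q'' ≤ p := by
        intro f hf
        have h2 := hle ((q''_mem f).1 hf)
        rwa [q_mem, tr_tr_neg] at h2
      have h2 : J tor γ w1 w2 S σ P r ≤ q'' := by
        rw [J, Ideal.span_le]
        intro f hf
        rw [SetLike.mem_coe, q''_mem]
        have h3 := Gen_step tor γ w1 w2 S σ P hf (-(gt t))
          (fun k => by rw [Pi.neg_apply, abs_neg]; exact gt_le t k) 0 0 (Nat.zero_le _)
        rw [gp_neg] at h3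
        exact hJq' (Ideal.subset_span h3)
      have h3 : p.height ≤ q''.height := by
        rw [hph, hrr]
        exact hh_le tor γ w1 w2 S σ P hq'' h2 (h1.trans hpm)
      have h4 : q'' = p := by
        have : q''.FiniteHeight := ⟨Or.inr (ne_top_of_le_ne_top (ENat.natCast_ne_top n)
          (height_le_n hq''))⟩
        exact Ideal.eq_of_le_of_height_le q'' h1 h3
      intro f hf
      have h5 : tr tor v f ∈ q'' := by
        rw [h4]
        exact (q_mem t f).1 hf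
      rwa [q''_mem, tr_neg_tr] at h5
  · -- multiplicities
    intro t f hf k1 k2 hk
    rw [q_mem]
    have h1 : V tor γ w1 w2 S σ P (r + 1) ≤
        ((J tor γ w1 w2 S σ P (r + 2)).restrictScalars ℂ).comap
        ((tr tor (gp γ (gt t))).toLinearMap ∘ₗ
          (((dr tor w1 : Rg n →ₗ[ℂ] Rg n) ^ k1) ∘ₗ ((dr tor w2 : Rg n →ₗ[ℂ] Rg n) ^ k2))) := by
      refine Submodule.span_le.2 fun f hf => ?_
      have h2 := Gen_step tor γ w1 w2 S σ P hf (gt t) (gt_le t) k1 k2 hk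
      have h3 : tr tor (gp γ (gt t)) (((dr tor w1 : Rg n →ₗ[ℂ] Rg n) ^ k1)
          (((dr tor w2 : Rg n →ₗ[ℂ] Rg n) ^ k2) f)) ∈ J tor γ w1 w2 S σ P (r + 2) := by
        rw [Module.End.pow_apply, Module.End.pow_apply]
        exact Ideal.subset_span h2
      exact h3
    have h2 := h1 hf
    have h3 : tr tor (gp γ (gt t)) (((dr tor w1 : Rg n →ₗ[ℂ] Rg n) ^ k1)
          (((dr tor w2 : Rg n →ₗ[ℂ] Rg n) ^ k2) f)) ∈ J tor γ w1 w2 S σ P (r + 2) := h2
    rw [Module.End.pow_apply, Module.End.pow_apply] at h3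
    exact hJp h3
  · -- degrees
    intro f hf i
    refine Submodule.span_induction (p := fun f _ => f.degreeOf i ≤ d i) ?_ ?_ ?_ ?_ hf
    · intro f hf
      exact (deg_Gen tor γ w1 w2 S σ P hf i).trans (hdegP i)
    · rw [degreeOf_zero]; exact Nat.zero_le _
    · intro f g _ _ h1 h2
      exact (degreeOf_add_le _ _ _).trans (max_le h1 h2)
    · intro a f _ h1
      rw [smul_eq_C_mul]
      exact (degreeOf_C_mul_le _ _ _).trans h1

end Trs
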